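import Mathlib
import Pool.Agent.H648R2.T.Final

/-!
# Digits of algebraic numbers and machines with several stacks which read the index

Let `ξ` be an irrational algebraic number. How complicated is the computation of the `n`-th digit
of `ξ` from the expansion of the index `n` in some base `k`? We exclude, for digits and for all
expansions with polynomially growing coefficients,

* all sequences `F` for which the matrices `F (W k^r + u)`, with rows `W < k^s` and columns
  `u < k^r`, have rank `o(k^s)`, uniformly in `r` (`LowRank`);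
* in particular what is computed by weighted (nondeterministic, with multiplicities) automata with
  any number of counters and any number of passes over the digits of `n`, or with several stacks
  whose alphabets are small with respect to `k` (`Pool.Agent.H648R2.T.StackAutomaton`);
* sums (with different bases `k`) and products of values of such expansions;
* and all this remains true if many terms are changed.

The proof (helper files `Pool.Agent.H648R2.T`) uses the subspace theorem.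
-/

set_option autoImplicit false

namespace Pool.Agent.Results.MP_5b6025_nt.IndexMachines

open Finset Pool.Agent.H648R2.T

/-- the matrix of the values of `F` at `W k^r + u`, with rows `W < k^s` and columns `u < k^r` -/
def splitMatrix (F : ℕ → ℤ) (k s r : ℕ) : Matrix (Fin (k ^ s)) (Fin (k ^ r)) ℚ :=
  Matrix.of fun W u => (F ((W : ℕ) * k ^ r + (u : ℕ)) : ℚ)

/-- the ranks of these matrices are `o(k^s)`, for all large `r` -/
def LowRank (F : ℕ → ℤ) (k : ℕ) : Prop :=
  ∀ T : ℕ, ∃ s r₀ : ℕ, ∀ r, r₀ ≤ r → T * ((splitMatrix F k s r).rank + 1) ≤ k ^ s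

/-- polynomial growth -/
def PolyGrowth (F : ℕ → ℤ) : Prop := ∃ K : ℕ, ∀ n : ℕ, |F n| ≤ (K : ℤ) * ((n : ℤ) + 1) ^ K

/-- the real number `∑ F(n) b^(-n)` -/
noncomputable def series (b : ℕ) (F : ℕ → ℤ) : ℝ := ∑' n, (F n : ℝ) / (b : ℝ) ^ n

/-- for every `C`, if `m` is large then the windows `G(s), …, G(s + m - 1)` with `s ≤ C m` are
pairwise different -/
def NoRepetition (G : ℕ → ℤ) : Prop :=
  ∀ C : ℕ, ∃ N, ∀ m, N ≤ m → ∀ s t, s < t → t ≤ C * m → ∃ i, i < m ∧ G (s + i) ≠ G (t + i)

/-- the `n`-th digit of `ξ` after the point in base `b` (`n ≥ 1`) -/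
noncomputable def digit (b : ℕ) (ξ : ℝ) (n : ℕ) : ℤ := ⌊ξ * (b : ℝ) ^ n⌋ % (b : ℤ)

lemma polyB_of {F : ℕ → ℤ} (h : PolyGrowth F) : PolyB F := polyB_iff h

lemma of_polyB {F : ℕ → ℤ} (h : PolyB F) : PolyGrowth F := by
  obtain ⟨K, hK⟩ := h
  exact ⟨K, fun n => by have := hK n; push_cast at this; exact this⟩

lemma thin_of {F : ℕ → ℤ} {k : ℕ} (h : LowRank F k) : Thin F k := thin_of_matrix h

lemma of_thin {F : ℕ → ℤ} {k : ℕ} (h : Thin F k) : LowRank F k := by
  intro T
  obtain ⟨s, ρ, r₀, h1, h2⟩ := h T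
  refine ⟨s, r₀, fun r hr => le_trans (Nat.mul_le_mul_left _ ?_) h1⟩
  obtain ⟨α, β, hαβ⟩ := h2 r hr
  have h3 : splitMatrix F k s r =
      (Matrix.of fun (W : Fin (k ^ s)) (z : Fin ρ) => α W z) *
        (Matrix.of fun (z : Fin ρ) (u : Fin (k ^ r)) => β z u) := by
    ext W u
    rw [Matrix.mul_apply]
    exact hαβ W W.isLt u u.isLt
  have h4 : (splitMatrix F k s r).rank ≤ ρ := by
    rw [h3]
    refine (Matrix.rank_mul_le_left _ _).trans ?_
    refine (Matrix.rank_le_card_width _).trans ?_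
    simp
  omega

/-- gaps in the set of the changed places are short -/
lemma gap_of_noRepetition {G : ℕ → ℤ} (h : NoRepetition G) (ε : ℝ) (hε : 0 < ε) :
    ∃ N : ℕ, ∀ n, N ≤ n → ∃ n', n ≤ n' ∧ (n' : ℝ) ≤ (1 + ε) * n ∧ G n' ≠ 0 := by
  obtain ⟨C, hC⟩ := exists_nat_gt (2 / ε)
  obtain ⟨N, hN⟩ := h (2 * (C + 1))
  have hC0 : (0 : ℝ) < C := lt_of_le_of_lt (by positivity) hC
  have hCn : 0 < C := by exact_mod_cast hC0
  refine ⟨(C + 1) * (N + 1), fun n hn => ?_⟩
  -- windows of length `m = n / C` at `n` and `n + 1`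
  set m := n / C with hm
  have h1 : N ≤ m := by
    rw [hm, Nat.le_div_iff_mul_le hCn]
    nlinarith
  have hm1 : 1 ≤ m := by
    rw [hm, Nat.le_div_iff_mul_le hCn]
    nlinarith
  have h2 : n < C * (m + 1) := by
    have h3 := Nat.div_add_mod n C
    have h4 := Nat.mod_lt n hCn
    rw [hm, Nat.mul_add, Nat.mul_one]
    omega
  by_contra hcon
  push Not at hcon
  have h3 : n + 1 ≤ 2 * (C + 1) * m := by nlinarith
  obtain ⟨i, hi, hne⟩ := hN m h1 n (n + 1) (by omega) h3
  have hmn : C * m ≤ n := Nat.mul_div_le _ _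
  have hz : ∀ j, j ≤ m → G (n + j) = 0 := by
    intro j hj
    by_contra hj0
    have := hcon (n + j) (by omega) ?_
    · exact hj0 this
    · push_cast
      have h4 : (j : ℝ) ≤ m := by exact_mod_cast hj
      have h5 : (C : ℝ) * m ≤ n := by exact_mod_cast hmn
      have h6 : 2 < C * ε := by rwa [div_lt_iff₀ hε] at hC
      have h7 : (0 : ℝ) ≤ m := Nat.cast_nonneg _
      have h8 : (m : ℝ) ≤ ε * n := by nlinarith [mul_le_mul_of_nonneg_left h5 hε.le]
      linarith
  apply hne
  rw [hz i (by omega)]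
  have := hz (1 + i) (by omega)
  rw [← add_assoc] at this
  rw [this]

theorem result :
    -- (1) series
    (∀ (b : ℕ), 2 ≤ b → ∀ ξ : ℝ, IsAlgebraic ℚ ξ → Irrational ξ →
      ∀ (ι : Type) [Fintype ι] (k : ι → ℕ) (F : ι → ℕ → ℤ) (R : ι → ℚ) (G : ℕ → ℤ),
        (∀ i, 2 ≤ k i) → (∀ i, LowRank (F i) (k i)) → (∀ i, PolyGrowth (F i)) → PolyGrowth G →
        ξ = ∑ i, (R i : ℝ) * series b (F i) + series b G → NoRepetition G) ∧
    -- (2) digits
    (∀ (b : ℕ), 2 ≤ b → ∀ ξ : ℝ, IsAlgebraic ℚ ξ → Irrational ξ →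
      ∀ (ι : Type) [Fintype ι] (k : ι → ℕ) (F : ι → ℕ → ℤ),
        (∀ i, 2 ≤ k i) → (∀ i, LowRank (F i) (k i)) → (∀ i, PolyGrowth (F i)) →
        NoRepetition (fun n => digit b ξ n - ∑ i, F i n) ∧
        ∀ ε : ℝ, 0 < ε → ∃ N : ℕ, ∀ n, N ≤ n → ∃ n', n ≤ n' ∧ (n' : ℝ) ≤ (1 + ε) * n ∧
          digit b ξ n' ≠ ∑ i, F i n') ∧
    -- (3) machines
    (∀ (M : StackAutomaton) (k : ℕ), 2 ≤ k → M.cost < k →
      LowRank (M.out k) k ∧ PolyGrowth (M.out k)) ∧
    -- (4) products
    (∀ (b : ℕ), 2 ≤ b → ∀ ξ : ℝ, IsAlgebraic ℚ ξ → Irrational ξ →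
      ∀ (ι : Type) [Fintype ι] (k : ι → ℕ) (M : ι → List StackAutomaton) (R : ι → ℚ) (G : ℕ → ℤ),
        (∀ i, 2 ≤ k i) → (∀ i, ((M i).map StackAutomaton.cost).prod < k i) → PolyGrowth G →
        ξ = ∑ i, (R i : ℝ) * ((M i).map fun A => series b (A.out (k i))).prod + series b G →
          NoRepetition G) := by
  refine ⟨?_, ?_, ?_, ?_⟩
  · intro b hb ξ hξ hirr ι _ k F R G hk hF hFp hG h C
    exact main_series b hb ξ hξ hirr k hk F (fun i => thin_of (hF i)) (fun i => polyB_of (hFp i))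
      R G (polyB_of hG) h C
  · intro b hb ξ hξ hirr ι _ k F hk hF hFp
    have hmain : NoRepetition (fun n => digit b ξ n - ∑ i, F i n) := by
      intro C
      have hbR : (2 : ℝ) ≤ b := by exact_mod_cast hb
      have hb0 : (0 : ℤ) < b := by exact_mod_cast (by omega : 0 < b)
      set L : List ((ℕ → ℤ) × ℕ) :=
        (Finset.univ : Finset ι).toList.map (fun i => (F i, k i)) with hL
      have hdig : ∀ n, |digit b ξ n| ≤ ((b * (n + 1) ^ b : ℕ) : ℤ) := by
        intro n
        unfold digit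
        rw [abs_of_nonneg (Int.emod_nonneg _ hb0.ne')]
        refine (Int.emod_lt_of_pos _ hb0).le.trans ?_
        push_cast
        have : (1 : ℤ) ≤ ((n : ℤ) + 1) ^ b := one_le_pow₀ (by omega)
        nlinarith
      apply main_seq b hb ξ hξ hirr L ?_ (fun n => digit b ξ n - ∑ i, F i n)
        (fun n => digit b ξ n) (fun n => Int.fract (ξ * (b : ℝ) ^ n)) ?_ b hdig ?_ ?_ ?_ C
      · intro p hp
        rw [hL, List.mem_map] at hp
        obtain ⟨i, -, rfl⟩ := hp
        exact ⟨hk i, thin_of (hF i)⟩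
      · intro n
        have h1 : (L.map (fun p => p.1 n)).sum = ∑ i, F i n := by
          rw [hL, List.map_map]
          exact Finset.sum_map_toList _ _
        rw [h1]
        ring
      · intro n
        rw [abs_of_nonneg (Int.fract_nonneg _)]
        refine (Int.fract_lt_one _).le.trans ?_
        push_cast
        have : (1 : ℝ) ≤ ((n : ℝ) + 1) ^ b := one_le_pow₀ (by
          have : (0 : ℝ) ≤ n := Nat.cast_nonneg _
          linarith)
        nlinarith
      · intro n
        -- `b {ξ b^n} = d_(n+1) + {ξ b^(n+1)}`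
        have h1 : ξ * (b : ℝ) ^ (n + 1) = b * Int.fract (ξ * (b : ℝ) ^ n) +
            ((b * ⌊ξ * (b : ℝ) ^ n⌋ : ℤ) : ℝ) := by
          have := Int.fract_add_floor (ξ * (b : ℝ) ^ n)
          push_cast
          rw [pow_succ]
          linear_combination (-(b : ℝ)) * this
        have h2 : ⌊ξ * (b : ℝ) ^ (n + 1)⌋ = ⌊(b : ℝ) * Int.fract (ξ * (b : ℝ) ^ n)⌋ +
            b * ⌊ξ * (b : ℝ) ^ n⌋ := by
          rw [h1, Int.floor_add_intCast]
        have h3 : Int.fract (ξ * (b : ℝ) ^ (n + 1)) =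
            Int.fract ((b : ℝ) * Int.fract (ξ * (b : ℝ) ^ n)) := by
          rw [h1, Int.fract_add_intCast]
        have h4 : digit b ξ (n + 1) = ⌊(b : ℝ) * Int.fract (ξ * (b : ℝ) ^ n)⌋ := by
          unfold digit
          rw [h2, Int.add_mul_emod_self_left]
          apply Int.emod_eq_of_lt
          · exact Int.floor_nonneg.2 (mul_nonneg (by linarith) (Int.fract_nonneg _))
          · rw [Int.floor_lt]
            push_cast
            have := Int.fract_lt_one (ξ * (b : ℝ) ^ n)
            nlinarith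
        show (b : ℝ) * Int.fract (ξ * (b : ℝ) ^ n) =
          ((digit b ξ (n + 1) : ℤ) : ℝ) + Int.fract (ξ * (b : ℝ) ^ (n + 1))
        rw [h3, h4]
        exact (Int.floor_add_fract _).symm
      · intro n
        exact ⟨⌊ξ * (b : ℝ) ^ n⌋, by rw [Int.self_sub_fract]⟩
    refine ⟨hmain, fun ε hε => ?_⟩
    obtain ⟨N, hN⟩ := gap_of_noRepetition hmain ε hε
    refine ⟨N, fun n hn => ?_⟩
    obtain ⟨n', h1, h2, h3⟩ := hN n hn
    exact ⟨n', h1, h2, fun h => h3 (by rw [h]; ring)⟩
  · intro M k hk hM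
    exact ⟨of_thin (rate_thin hk hM (M.rate hk)), of_polyB (M.out_poly hk)⟩
  · intro b hb ξ hξ hirr ι _ k M R G hk hM hG h C
    exact main_machines b hb ξ hξ hirr k hk M hM R G (polyB_of hG) h C

end Pool.Agent.Results.MP_5b6025_nt.IndexMachines
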