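import Mathlib
import Pool.Agent.R473.PP.Comp
import Pool.Agent.TH842.HS.Power
import Pool.Agent.TH842.A3.Final

/-!
# Prediction and compression of the digits of algebraic numbers

Two ways in which the digits of an irrational real algebraic number look random.

* Prediction: a deterministic pushdown automaton (finitely many states, one stack) reads the digits
  and, before it reads the next one, announces a guess; it must be wrong often.
* Compression: an automaton with `Q` states reads the digits and writes a word (possibly empty, of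
  any length, over any alphabet) in every step, such that what it has read is determined by what it
  has written and its last state; it must write often.

The automata are in `Pool.Agent.R473.PP.Push` and `Pool.Agent.R473.PP.Comp`.  The lower bounds for
the number of failures of `a_k = a_(k+P)` are the ones of the starting results
`AllAlgebraicExponentThree` and `DigitRelations`, and the analysis of autonomous pushdown automata
is the one of the starting files `Pool.Agent.W979.HS`.
-/

set_option autoImplicit false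

namespace Pool.Agent.Results.MP_5b6025_nt.PushdownPredictors

open Finset Filter Pool.Agent.W979.HS Pool.Agent.R473.PP NumberField IntermediateField

/-- `d 0, d 1, …` are the digits of the fractional part of `x` in base `b`: the digit `d i` is
`⌊b ^ (i+1) x⌋ mod b` -/
def IsDigits (b : ℕ) (x : ℝ) (d : ℕ → Fin b) : Prop :=
  ∀ i, ((d i : ℕ) : ℤ) = ⌊(b : ℝ) ^ (i + 1) * x⌋ % (b : ℤ)

/-- Let `x` be an irrational real algebraic number.
(1) In every base `b ≥ 2`: a pushdown predictor which reads the digits of `x` is wrong at least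
`c (log N) ^ 3 / (log log N) ^ 5` times before it has read `N` digits, and a lossless automaton with
`Q` states which reads the digits of `x` writes something in at least `c (log N) ^ 3 /
(log log N) ^ 5` of the first `N` steps; `N` is large, and `c > 0` and the bound for `N` depend on
the predictor but not on its initial state, respectively only on `Q` (and on `x` and `b`).
(2) If `ℚ(x)` has a subfield `L ≠ ℚ` which is Galois over `ℚ`, then there is a prime `p` such that
in every base `b` which is not divisible by `p` the same holds with `c N ^ ε` for some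
`c, ε > 0`. -/
theorem result (x : ℝ) (halg : IsAlgebraic ℚ x) (hirr : Irrational x) :
    (∀ b : ℕ, 2 ≤ b → ∀ d : ℕ → Fin b, IsDigits b x d →
      (∀ (Q Γ : Type) [Fintype Q] [Fintype Γ] (M : Predictor b Q Γ),
        ∃ c : ℝ, 0 < c ∧ ∃ N0 : ℕ, ∀ (q₀ : Q) (N T : ℕ), N0 ≤ N → N ≤ (M.conf q₀ d T).1 →
          c * ((Real.log N) ^ 3 / (Real.log (Real.log N)) ^ 5) ≤ M.wrong q₀ d T) ∧
      (∀ Q : ℕ, ∃ c : ℝ, 0 < c ∧ ∃ N0 : ℕ, ∀ (β : Type) [DecidableEq β]
        (δ : Fin Q → Fin b → Fin Q) (o : Fin Q → Fin b → List β) (q₀ : Fin Q), Lossless δ o q₀ →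
        ∀ N : ℕ, N0 ≤ N →
          c * ((Real.log N) ^ 3 / (Real.log (Real.log N)) ^ 5) ≤ writes δ o q₀ d N)) ∧
    (∀ L : IntermediateField ℚ ℚ⟮x⟯, L ≠ ⊥ → IsGalois ℚ L → ∃ p : ℕ, p.Prime ∧
      ∀ b : ℕ, 2 ≤ b → ¬ p ∣ b → ∀ d : ℕ → Fin b, IsDigits b x d →
        (∀ (Q Γ : Type) [Fintype Q] [Fintype Γ] (M : Predictor b Q Γ),
          ∃ c ε : ℝ, 0 < c ∧ 0 < ε ∧ ∃ N0 : ℕ, ∀ (q₀ : Q) (N T : ℕ), N0 ≤ N →
            N ≤ (M.conf q₀ d T).1 → c * (N : ℝ) ^ ε ≤ M.wrong q₀ d T) ∧
        (∀ Q : ℕ, ∃ c ε : ℝ, 0 < c ∧ 0 < ε ∧ ∃ N0 : ℕ, ∀ (β : Type) [DecidableEq β]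
          (δ : Fin Q → Fin b → Fin Q) (o : Fin Q → Fin b → List β) (q₀ : Fin Q), Lossless δ o q₀ →
          ∀ N : ℕ, N0 ≤ N → c * (N : ℝ) ^ ε ≤ writes δ o q₀ d N)) := by
  refine ⟨fun b hb d hd => ?_, fun L hL hgal => ?_⟩
  · have hrel : ∀ P : ℕ, 1 ≤ P → ∃ c : ℝ, 0 < c ∧ ∃ N0 : ℕ, ∀ N : ℕ, N0 ≤ N →
        c * ((Real.log N) ^ 3 / (Real.log (Real.log N)) ^ 5) ≤ (((Icc 1 N).filter (fun k : ℕ =>
          ∑ j ∈ range (P + 1), (if j = 0 then (1 : ℤ) else if j = P then -1 else 0) *
            digit b x (k + j) ≠ 0)).card : ℝ) := by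
      intro P hP
      have hirr' : ∀ z : Fin 1 → ℤ, z ≠ 0 →
          Irrational (∑ i, (z i : ℝ) * (fun _ : Fin 1 => x) i) := by
        intro z hz
        have h0 : z 0 ≠ 0 := by
          intro h
          apply hz
          funext i
          rw [Subsingleton.elim i 0, h]
          rfl
        rw [Fin.sum_univ_one]
        exact hirr.intCast_mul h0
      obtain ⟨c, hc, N0, h⟩ := Pool.Agent.TH842.A3.Out5.relations5 Pool.Agent.TH842.A3.mg5
        (fun _ : Fin 1 => x) (fun _ => halg) hirr' b hb P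
        (fun _ j => if j = 0 then (1 : ℤ) else if j = P then -1 else 0) ⟨0, 0, by omega, by simp⟩ 0
      refine ⟨c, hc, N0, fun N hN => ?_⟩
      rw [← mul_div_assoc]
      refine (h N hN).trans (le_of_eq ?_)
      congr 2
      apply Finset.filter_congr
      intro k _
      rw [Fin.sum_univ_one]
      rfl
    have hf : Tendsto (fun N : ℕ => (Real.log N) ^ 3 / (Real.log (Real.log N)) ^ 5) atTop atTop :=
      tend 3 5 (by norm_num)
    refine ⟨fun Q Γ _ _ M => ?_, fun Q => ?_⟩
    · obtain ⟨c, hc, N0, h⟩ := predictor_access b x _ hf hrel M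
      exact ⟨c, hc, N0, fun q₀ N T hN hT => h q₀ d hd N T hN hT⟩
    · obtain ⟨c, hc, N0, h⟩ := compressor_access b x _ hf hrel Q
      exact ⟨c, hc, N0, fun β _ δ o q₀ hl N hN => h β δ o q₀ hl d hd N hN⟩
  · obtain ⟨p, hp, h⟩ := (Pool.Agent.Results.MP_7e9a3a_nt.DigitRelations.result x halg).2 L hL hgal
    refine ⟨p, hp, fun b hb hpb d hd => ?_⟩
    have hrel := fun (P : ℕ) (hP : 1 ≤ P) =>
      Pool.Agent.TH842.HS.rel_of_fail x b hb (h b hb hpb) P hP
    refine ⟨fun Q Γ _ _ M => ?_, fun Q => ?_⟩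
    · obtain ⟨c, ε, hc, hε, N0, h⟩ := predictor_pow b x hrel M
      exact ⟨c, ε, hc, hε, N0, fun q₀ N T hN hT => h q₀ d hd N T hN hT⟩
    · obtain ⟨c, ε, hc, hε, N0, h⟩ := compressor_pow b x hrel Q
      exact ⟨c, ε, hc, hε, N0, fun β _ δ o q₀ hl N hN => h β δ o q₀ hl d hd N hN⟩

end Pool.Agent.Results.MP_5b6025_nt.PushdownPredictors
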