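import Pool.Agent.W47.LC.Two
import Pool.Agent.W47.LC.EBound

/-!
# The linear complexity profile of the digits of quadratic irrationals, with an error term

The linear complexity over `ℚ` of the first `L` digits of a number is the least order of a linear
recurrence with rational coefficients which these digits satisfy.  For random digits it is close
to `L / 2`.

For every real quadratic irrational number (and for `e`, and for every number which is almost badly
approximable) it is `L / 2 + O(√(L log L))`, with one constant for all bases `b ≥ 2` and all `L`.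
So the profile follows the line `L / 2` closely in every base at once, it is never constant on an
interval longer than `O(√(L log L))`, and it never jumps by more.

Proof: helper files `Pool.Agent.W47.LC` (starting library).  A recurrence of small order is turned
by Siegel's lemma (with a number of free coefficients of the order `√(L / log L)`) into one with
small integer coefficients, hence into a rational approximation of the number with a denominator
of controlled size.  The upper bound is the dual statement: if the first `L - 1` digits satisfy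
no relation of small order, then a system of linear equations is solvable.
-/

set_option autoImplicit false

namespace Pool.Agent.Results.MP_5b6025_nt.SharpProfile

open Finset Polynomial

/-- the `i`-th digit of `x` after the point in base `b` -/
noncomputable def digit (b : ℕ) (x : ℝ) (i : ℕ) : ℤ := ⌊x * (b : ℝ) ^ i⌋ % (b : ℤ)

/-- The first `L` digits `a_1, …, a_L` satisfy a linear recurrence of order `m` over `ℚ`:
`a_(i+m) = c_0 a_i + … + c_(m-1) a_(i+m-1)` for `1 ≤ i ≤ L - m`. -/
def Recurrence (b : ℕ) (x : ℝ) (L m : ℕ) : Prop :=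
  ∃ c : ℕ → ℚ, ∀ i : ℕ, 1 ≤ i → i + m ≤ L →
    (digit b x (i + m) : ℚ) = ∑ j ∈ range m, c j * (digit b x (i + j) : ℚ)

/-- the linear complexity over `ℚ` of the first `L` digits: the least order of a recurrence -/
noncomputable def linearComplexity (b : ℕ) (x : ℝ) (L : ℕ) : ℕ := sInf {m | Recurrence b x L m}

/-- Liouville's inequality for quadratic irrationals -/
theorem liouville (x : ℝ) (hx : Irrational x) (u v w : ℤ) (hu : u ≠ 0)
    (h : (u : ℝ) * x ^ 2 + v * x + w = 0) :
    ∃ c : ℝ, 0 < c ∧ ∀ q : ℕ, 1 ≤ q → ∀ p : ℤ, c ≤ (q : ℝ) * |q * x - p| := by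
  set f : ℤ[X] := C u * X ^ 2 + C v * X + C w with hf
  have hd : f.natDegree = 2 := natDegree_quadratic hu
  have f0 : f ≠ 0 := by
    intro h0
    rw [h0, natDegree_zero] at hd
    omega
  obtain ⟨a, ha, hL⟩ := Liouville.exists_pos_real_of_irrational_root hx f0 (by
    rw [hf]
    simp only [Polynomial.map_add, Polynomial.map_mul, Polynomial.map_pow, Polynomial.map_C,
      Polynomial.map_X, eval_add, eval_mul, eval_pow, eval_C, eval_X]
    simpa using h)
  refine ⟨1 / a, by positivity, fun q hq p => ?_⟩
  have h1 := hL p (q - 1)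
  have hqR : (0 : ℝ) < q := by exact_mod_cast hq
  have e1 : (((q - 1 : ℕ) : ℝ) + 1) = q := by
    rw [Nat.cast_sub hq]
    push_cast
    ring
  rw [e1, hd] at h1
  have e2 : |x - p / q| = |q * x - p| / q := by
    rw [← abs_of_pos hqR, ← abs_div, abs_of_pos hqR]
    congr 1
    field_simp
  rw [e2] at h1
  rw [div_le_iff₀ ha]
  calc (1 : ℝ) ≤ (q : ℝ) ^ 2 * (|q * x - p| / q * a) := h1
    _ = (q : ℝ) * |q * x - p| * a := by field_simp

/-- numbers which are almost badly approximable -/
theorem main (x : ℝ) (A : ℕ) (c : ℝ) (hc : 0 < c)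
    (hx : ∀ q : ℕ, 1 ≤ q → ∀ p : ℤ, c ≤ (q : ℝ) * (1 + Real.log q) ^ A * |q * x - p|) :
    ∃ C : ℝ, ∀ b : ℕ, 2 ≤ b → ∀ L : ℕ,
      |(linearComplexity b x L : ℝ) - L / 2| ≤ C * Real.sqrt (L * Real.log (L + 1)) := by
  obtain ⟨C, hC⟩ := Pool.Agent.W47.LC.two x A c hc hx
  exact ⟨C, fun b hb L => hC L b hb⟩

/-- (1) For every real quadratic irrational number `x` there is a constant `C` such that for all
bases `b ≥ 2` and all `L` the linear complexity over `ℚ` of the first `L` base `b` digits of `x`
differs from `L / 2` by at most `C √(L log (L + 1))`.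

(2) The same holds for `e`.

(3) The same holds for every real number `x` such that for some `A` and some `c > 0` one has
`|q x - p| ≥ c / (q (1 + log q)^A)` for all integers `p` and `q ≥ 1`. -/
theorem result :
    (∀ x : ℝ, Irrational x →
      (∃ u v w : ℤ, u ≠ 0 ∧ (u : ℝ) * x ^ 2 + v * x + w = 0) →
      ∃ C : ℝ, ∀ b : ℕ, 2 ≤ b → ∀ L : ℕ,
        |(linearComplexity b x L : ℝ) - L / 2| ≤ C * Real.sqrt (L * Real.log (L + 1))) ∧
    (∃ C : ℝ, ∀ b : ℕ, 2 ≤ b → ∀ L : ℕ,
      |(linearComplexity b (Real.exp 1) L : ℝ) - L / 2| ≤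
        C * Real.sqrt (L * Real.log (L + 1))) ∧
    (∀ (x : ℝ) (A : ℕ) (c : ℝ), 0 < c →
      (∀ q : ℕ, 1 ≤ q → ∀ p : ℤ, c ≤ (q : ℝ) * (1 + Real.log q) ^ A * |q * x - p|) →
      ∃ C : ℝ, ∀ b : ℕ, 2 ≤ b → ∀ L : ℕ,
        |(linearComplexity b x L : ℝ) - L / 2| ≤ C * Real.sqrt (L * Real.log (L + 1))) := by
  refine ⟨fun x hx h => ?_, main _ 1 (1 / 1000) (by norm_num) Pool.Agent.W47.LC.eBound,
    fun x A c hc h => main x A c hc h⟩
  obtain ⟨u, v, w, hu, h⟩ := h
  obtain ⟨c, hc, hL⟩ := liouville x hx u v w hu h
  refine main x 0 c hc fun q hq p => ?_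
  rw [pow_zero, mul_one]
  exact hL q hq p

end Pool.Agent.Results.MP_5b6025_nt.SharpProfile
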