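import Mathlib
import Pool.Agent.TH842.HS.Power
import Pool.Agent.TH842.A3.Final

/-!
# Machines with stacks that write the digits of an algebraic number

A machine with finitely many stacks (for instance a multi-tape Turing machine: every tape consists
of two stacks) writes the digits of an irrational real algebraic number.  How often does it have to
use the part of its memory outside one of the stacks?  We count the steps in which a nonempty stack
other than `k₀` is popped.  Without such steps the machine is a deterministic pushdown automaton,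
and what it writes is eventually periodic.

The definition of the machines and the first main step (the words which are written between two
such steps are concatenations of few powers of short words) are in the starting files
`Pool.Agent.W979.HS`, `Pool.Agent.TH842.HS.Power`; the lower bounds for the number of failures of
`a_k = a_(k+P)` are the ones of the starting results `AllAlgebraicExponentThree` and
`DigitRelations`.
-/

set_option autoImplicit false

namespace Pool.Agent.Results.MP_5b6025_nt.StackMachines

open Finset Filter Pool.Agent.W979.HS NumberField IntermediateField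

/-- The machine `M` writes at most `s` other symbols and then digits (all or only finitely many) of
the fractional part of `x` in base `b`: the symbol number `s + i` is the digit `⌊b ^ (i+1) x⌋ mod b`
(`i ≥ 0`), at any time and whenever it has been written. -/
def Writes (M : StackMachine) (b : ℕ) (x : ℝ) (s : ℕ) : Prop :=
  ∀ (T i d : ℕ), (M.output T)[s + i]? = some d → (d : ℤ) = ⌊(b : ℝ) ^ (i + 1) * x⌋ % (b : ℤ)

open Classical in
/-- the number of the steps before the step `T` in which a nonempty stack other than `k₀` is
popped -/
noncomputable def pops (M : StackMachine) (k₀ : M.ι) (T : ℕ) : ℕ :=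
  ((range T).filter (M.PopOutside k₀)).card

/-- the lower bound tends to infinity -/
theorem tendsto_bound : Tendsto (fun N : ℕ =>
    (Real.log N) ^ 3 / (Real.log (Real.log N)) ^ 5) atTop atTop := by
  have h : Tendsto (fun t : ℝ => t ^ 3 / (Real.log t) ^ 5) atTop atTop := by
    have h1 : ∀ᶠ t : ℝ in atTop, (Real.log t) ^ 5 ≤ t := by
      have h2 := (Real.isLittleO_pow_log_id_atTop (n := 5)).bound (c := 1) one_pos
      filter_upwards [h2, eventually_ge_atTop (1 : ℝ)] with t ht ht1
      have h3 : 0 ≤ Real.log t := Real.log_nonneg ht1
      rw [one_mul, Real.norm_of_nonneg (by positivity), id, Real.norm_of_nonneg (by linarith)] at ht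
      exact ht
    refine tendsto_atTop_mono' _ ?_ tendsto_id
    filter_upwards [h1, eventually_gt_atTop (1 : ℝ)] with t ht ht1
    have h3 : 0 < Real.log t := Real.log_pos ht1
    rw [id, le_div_iff₀ (by positivity)]
    nlinarith [mul_le_mul_of_nonneg_left ht (by linarith : (0 : ℝ) ≤ t), pow_pos h3 5,
      mul_nonneg (mul_self_nonneg t) (by linarith : (0 : ℝ) ≤ t - 1)]
  exact h.comp (Real.tendsto_log_atTop.comp tendsto_natCast_atTop_atTop)

/-- Let `x` be an irrational real algebraic number.
(1) In every base `b ≥ 2` a machine which writes the digits of `x` has to pop stacks other than `k₀`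
at least `c (log N) ^ 3 / (log log N) ^ 5` times before it has written `N` digits, for some `c > 0`
which depends on the machine and all large `N`, whichever stack `k₀` is left out.
(2) If `ℚ(x)` has a subfield `L ≠ ℚ` which is Galois over `ℚ`, then there is a prime `p` such that
in every base `b` which is not divisible by `p` this happens at least `c N ^ δ` times, for some
`c, δ > 0` which depend on the machine. -/
theorem result (x : ℝ) (halg : IsAlgebraic ℚ x) (hirr : Irrational x) :
    (∀ b : ℕ, 2 ≤ b → ∀ (M : StackMachine) (k₀ : M.ι) (s : ℕ), Writes M b x s →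
      ∃ c : ℝ, 0 < c ∧ ∃ N0 : ℕ, ∀ N T : ℕ, N0 ≤ N → N ≤ (M.output T).length →
        c * ((Real.log N) ^ 3 / (Real.log (Real.log N)) ^ 5) ≤ pops M k₀ T) ∧
    (∀ L : IntermediateField ℚ ℚ⟮x⟯, L ≠ ⊥ → IsGalois ℚ L → ∃ p : ℕ, p.Prime ∧
      ∀ b : ℕ, 2 ≤ b → ¬ p ∣ b → ∀ (M : StackMachine) (k₀ : M.ι) (s : ℕ), Writes M b x s →
        ∃ c δ : ℝ, 0 < c ∧ 0 < δ ∧ ∃ N0 : ℕ, ∀ N T : ℕ, N0 ≤ N → N ≤ (M.output T).length →
          c * (N : ℝ) ^ δ ≤ pops M k₀ T) := by
  refine ⟨fun b hb M k₀ s hw => ?_, fun L hL hgal => ?_⟩
  · refine machine_access b x _ tendsto_bound (fun P hP => ?_) M k₀ s hw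
    have hirr' : ∀ z : Fin 1 → ℤ, z ≠ 0 → Irrational (∑ i, (z i : ℝ) * (fun _ : Fin 1 => x) i) := by
      intro z hz
      have h0 : z 0 ≠ 0 := by
        intro h
        apply hz
        funext i
        rw [Subsingleton.elim i 0, h]
        rfl
      rw [Fin.sum_univ_one]
      exact hirr.intCast_mul h0
    obtain ⟨c, hc, N0, h⟩ := Pool.Agent.TH842.A3.Out5.relations5 Pool.Agent.TH842.A3.mg5
      (fun _ : Fin 1 => x) (fun _ => halg) hirr' b hb P
      (fun _ j => if j = 0 then (1 : ℤ) else if j = P then -1 else 0) ⟨0, 0, by omega, by simp⟩ 0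
    refine ⟨c, hc, N0, fun N hN => ?_⟩
    rw [← mul_div_assoc]
    refine (h N hN).trans (le_of_eq ?_)
    congr 2
    apply Finset.filter_congr
    intro k _
    rw [Fin.sum_univ_one]
    rfl
  · obtain ⟨p, hp, h⟩ := (Pool.Agent.Results.MP_7e9a3a_nt.DigitRelations.result x halg).2 L hL hgal
    refine ⟨p, hp, fun b hb hpb M k₀ s hw => ?_⟩
    exact Pool.Agent.TH842.HS.machine_pow b x (fun P hP =>
      Pool.Agent.TH842.HS.rel_of_fail x b hb (h b hb hpb) P hP) M k₀ s hw

end Pool.Agent.Results.MP_5b6025_nt.StackMachines
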